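import Pool.Agent.Helper72.EP.Spec2

/-! UARC: the arc of a `D`-cycle in a component of the zero graph -/

namespace ErdPos

open Finset

section
variable {E X : Type}

open Classical in
lemma uarc_par_union (inc : E → X → Prop) (A B : Finset E) (h : Disjoint A B) (x : X) :
    par inc (A ∪ B) x = par inc A x + par inc B x := by
  unfold par
  rw [filter_union, card_union_of_disjoint, Nat.cast_add]
  exact disjoint_filter_filter h

open Classical in
lemma uarc_par_empty (inc : E → X → Prop) (x : X) : par inc (∅ : Finset E) x = 0 := by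
  unfold par
  simp

variable {V : Type} [DecidableEq V]

open Classical in
lemma uarc_tel {inc : E → X → Prop} {𝒟 : Set (Finset E)} {carry : Sym2 V → Set E}
    {TD : Finset E → SimpleGraph V} {ZZ : SimpleGraph V} {y : V → X → ZMod 2}
    (ht : TSys inc 𝒟 carry TD ZZ y) {D : Finset E} (hD : D ∈ 𝒟) (hP : PApi (TD D)) (x : X) :
    ∀ n : ℕ, ∀ a b S T, S.card = n → Pth (TD D) a b S T →
      y a x + y b x = par inc (D.filter (fun f => ∃ h ∈ T, f ∈ carry h)) x := by
  intro n
  induction n with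
  | zero =>
    intro a b S T hS h
    have := (hP.ends a b S T h).1
    rw [card_eq_zero] at hS
    rw [hS] at this
    exact absurd this (notMem_empty _)
  | succ n ih =>
    intro a b S T hS h
    by_cases hab : a = b
    · subst hab
      obtain ⟨-, hT⟩ := hP.triv a S T h
      subst hT
      have : (D.filter (fun f => ∃ h ∈ (∅ : Finset (Sym2 V)), f ∈ carry h)) = ∅ := by
        ext f; simp
      rw [this, uarc_par_empty]
      exact CharTwo.add_self_eq_zero _
    · obtain ⟨c, S', T', hac, hp, haS, hSS, hTT, hnT⟩ := hP.step a b S T h hab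
      have h1 := ht.t3' D hD a c hac x
      have h2 := ih c b S' T' (by rw [hSS, card_insert_of_notMem haS] at hS; omega) hp
      have h3 : D.filter (fun f => ∃ h ∈ T, f ∈ carry h) =
          D.filter (fun f => f ∈ carry s(a, c)) ∪ D.filter (fun f => ∃ h ∈ T', f ∈ carry h) := by
        ext f
        simp only [mem_filter, mem_union, hTT, mem_insert, exists_eq_or_imp]
        tauto
      rw [h3, uarc_par_union, ← h1, ← h2]
      · have : y c x + y c x = 0 := CharTwo.add_self_eq_zero _
        linear_combination -this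
      · rw [Finset.disjoint_left]
        intro f hf hf'
        rw [mem_filter] at hf hf'
        obtain ⟨h', hh', hfh⟩ := hf'.2
        have := ht.t2 _ _ _ hf.2 hfh
        rw [this] at hnT
        exact hnT hh'

open Classical in
lemma uarc_mem_att {carry : Sym2 V → Set E} {D : Finset E} {U : Finset V} {w : V} :
    w ∈ att carry D U ↔ w ∈ U ∧ ∃ h : Sym2 V, w ∈ h ∧ ∃ f ∈ D, f ∈ carry h := by
  unfold att
  exact mem_filter

end

theorem st_UARC (h1 : ST_PA) (h2 : ST_CA) : ST_UARC := by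
  classical
  intro V _ _ E X inc 𝒟 carry TD ZZ y hs ht D hD U hU S T hDC
  have hP := h1 V (TD D)
  have hZ := h1 V ZZ
  have hC := h2 V (TD D)
  obtain ⟨hcyc, hcov⟩ := hDC
  have hmemT : ∀ h f, f ∈ D → f ∈ carry h → h ∈ T := by
    intro h f hf hfh
    obtain ⟨h', hh', hf'⟩ := hcov f hf
    rw [ht.t2 h h' f hfh hf']
    exact hh'
  have hatt : ∀ w, w ∈ att carry D U ↔ w ∈ U ∧ ∃ h : Sym2 V, w ∈ h ∧ ∃ f ∈ D, f ∈ carry h := by
    intro w
    exact uarc_mem_att
  have hone : ∀ w ∈ att carry D U, w ∈ S := by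
    intro w hw
    obtain ⟨hwU, h, hwh, f, hf, hfh⟩ := (hatt w).1 hw
    obtain ⟨x, hx, z, hz, -, rfl⟩ := hC.tmem S T hcyc h (hmemT h f hf hfh)
    rcases Sym2.mem_iff.1 hwh with rfl | rfl
    · exact hx
    · exact hz
  refine ⟨hone, fun hSU => ?_⟩
  obtain ⟨f0, hf0⟩ := hs.ne D hD
  obtain ⟨h0, hh0, hf0h⟩ := hcov f0 hf0
  obtain ⟨p, hpS, q, hqS, hpq, rfl⟩ := hC.tmem S T hcyc h0 hh0
  obtain ⟨hne, -, -, -, hR⟩ := hC.edge p q S T hcyc hh0
  obtain ⟨s, hsU, S1, T1, S2, T2, p1, p2, e1, e2, e3, e4, e5⟩ := hP.first p q S _ U hR hSU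
  have hsS2 : s ∈ S2 := (hP.ends _ _ _ _ p2).1
  obtain ⟨t, htU, S3, T3, S4, T4, p3, p4, g1, g2, g3, g4, g5⟩ := hP.first q s S2 T2 U p2.symm
    ⟨s, mem_inter.2 ⟨hsS2, hsU⟩⟩
  have hyU : ∀ v ∈ U, y v = y s := by
    by_contra hcon
    push Not at hcon
    obtain ⟨v, hv, hvs⟩ := hcon
    obtain ⟨a, ha, b, hb, hab⟩ := hU.conn.2 (U.filter (fun v => y v = y s)) (filter_subset _ _)
      ⟨s, mem_filter.2 ⟨hsU, rfl⟩⟩ (fun he => hvs (by
        have : v ∈ U.filter (fun v => y v = y s) := by rw [he]; exact hv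
        exact (mem_filter.1 this).2))
    rw [mem_sdiff, mem_filter] at hb
    exact hb.2 ⟨hb.1, by rw [← ht.t3 a b hab]; exact (mem_filter.1 ha).2⟩
  have hT4T : T4 ⊆ T.erase s(p, q) := by
    rw [← e5, ← g5]
    exact subset_union_right.trans subset_union_right
  have hzero : ∀ h ∈ T4, ∀ f ∈ D, f ∉ carry h := by
    have hev : Evn inc (D.filter (fun f => ∃ h ∈ T4, f ∈ carry h)) := by
      intro x
      rw [← uarc_tel ht hD hP x _ t s S4 T4 rfl p4, hyU t htU]
      exact CharTwo.add_self_eq_zero _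
    intro h hh f hf hfh
    have hne4 : (D.filter (fun f => ∃ h ∈ T4, f ∈ carry h)).Nonempty :=
      ⟨f, mem_filter.2 ⟨hf, h, hh, hfh⟩⟩
    have hall := hs.mini D hD _ (filter_subset _ _) hne4 hev
    have : f0 ∈ D.filter (fun f => ∃ h ∈ T4, f ∈ carry h) := by rw [hall]; exact hf0
    obtain ⟨h', hh', hf'⟩ := (mem_filter.1 this).2
    rw [ht.t2 _ _ _ hf' hf0h] at hh'
    exact (mem_erase.1 (hT4T hh')).1 rfl
  have p4' : Pth ZZ t s S4 T4 := by
    refine hP.transfer ZZ t s S4 T4 p4 (fun e he => ?_)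
    obtain ⟨x, -, z, -, hxz, rfl⟩ := hP.tmem _ _ _ _ p4 e he
    exact ht.t1 D hD x z hxz (hzero _ he)
  have hS4U : S4 ⊆ U := by
    have hc := hZ.conn _ _ _ _ p4'
    exact hU.subset_of_mem hc (subset_univ _) (hZ.ends _ _ _ _ p4').2 hsU
  have hS1 : ∀ v ∈ S1, v ∈ U → v = s := by
    intro v hv hvU
    have : v ∈ S1 ∩ U := mem_inter.2 ⟨hv, hvU⟩
    rw [e1] at this
    exact mem_singleton.1 this
  have hS3 : ∀ v ∈ S3, v ∈ U → v = t := by
    intro v hv hvU
    have : v ∈ S3 ∩ U := mem_inter.2 ⟨hv, hvU⟩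
    rw [g1] at this
    exact mem_singleton.1 this
  have hS12 : ∀ v ∈ S1, v ∈ S2 → v = s := by
    intro v hv hvU
    have : v ∈ S1 ∩ S2 := mem_inter.2 ⟨hv, hvU⟩
    rw [e2] at this
    exact mem_singleton.1 this
  have hs4 : s ∈ S4 := (hP.ends _ _ _ _ p4).2
  have ht4 : t ∈ S4 := (hP.ends _ _ _ _ p4).1
  have hp1 : p ∈ S1 := (hP.ends _ _ _ _ p1).1
  have hs1 : s ∈ S1 := (hP.ends _ _ _ _ p1).2
  have hq3 : q ∈ S3 := (hP.ends _ _ _ _ p3).1
  have ht3 : t ∈ S3 := (hP.ends _ _ _ _ p3).2
  have h32 : S3 ⊆ S2 := by rw [← g3]; exact subset_union_left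
  have h42 : S4 ⊆ S2 := by rw [← g3]; exact subset_union_right
  have h1S : S1 ⊆ S := by rw [← e3]; exact subset_union_left
  have h2S : S2 ⊆ S := by rw [← e3]; exact subset_union_right
  have hSU4 : S ∩ U = S4 := by
    apply subset_antisymm
    · intro v hv
      rw [mem_inter, ← e3, mem_union, ← g3, mem_union] at hv
      obtain ⟨hv, hvU⟩ := hv
      rcases hv with hv | hv | hv
      · rw [hS1 v hv hvU]; exact hs4
      · rw [hS3 v hv hvU]; exact ht4
      · exact hv
    · intro v hv
      exact mem_inter.2 ⟨h2S (h42 hv), hS4U hv⟩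
  have hTcases : ∀ h ∈ T, h = s(p, q) ∨ h ∈ T1 ∨ h ∈ T3 ∨ h ∈ T4 := by
    intro h hh
    by_cases he : h = s(p, q)
    · exact Or.inl he
    · right
      have : h ∈ T.erase s(p, q) := mem_erase.2 ⟨he, hh⟩
      rw [← e5, mem_union, ← g5, mem_union] at this
      exact this
  have hend : ∀ (a c : V) (P : Finset V) (R : Finset (Sym2 V)), Pth (TD D) a c P R → a ∈ U →
      (∀ v ∈ P, v ∈ U → v = a) → a ≠ c → ∃ h : Sym2 V, a ∈ h ∧ ∃ f ∈ D, f ∈ carry h := by
    intro a c P R hp ha hPU hac
    obtain ⟨x, S', T', hax, hp', haS', hSS, -, -⟩ := hP.step a c P R hp hac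
    have hxS' : x ∈ S' := (hP.ends _ _ _ _ hp').1
    have hxU : x ∉ U := by
      intro hxU
      have := hPU x (by rw [hSS]; exact mem_insert_of_mem hxS') hxU
      rw [this] at hxS'
      exact haS' hxS'
    refine ⟨s(a, x), Sym2.mem_mk_left a x, ?_⟩
    by_contra hcon
    push Not at hcon
    exact hxU (hU.mem_of_adj ha (mem_univ _) (ht.t1 D hD a x hax hcon))
  have hsatt : s ∈ att carry D U := by
    rw [hatt]
    refine ⟨hsU, ?_⟩
    by_cases hsp : s = p
    · exact ⟨s(p, q), by rw [hsp]; exact Sym2.mem_mk_left p q, f0, hf0, hf0h⟩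
    · exact hend s p S1 T1 p1.symm hsU hS1 hsp
  have htatt : t ∈ att carry D U := by
    rw [hatt]
    refine ⟨htU, ?_⟩
    by_cases htq : t = q
    · exact ⟨s(p, q), by rw [htq]; exact Sym2.mem_mk_right p q, f0, hf0, hf0h⟩
    · exact hend t q S3 T3 p3.symm htU hS3 htq
  have hattE : att carry D U = {s, t} := by
    apply subset_antisymm
    · intro w hw
      have hwS := hone w hw
      obtain ⟨hwU, h, hwh, f, hf, hfh⟩ := (hatt w).1 hw
      rw [mem_insert, mem_singleton]
      rcases hTcases h (hmemT h f hf hfh) with rfl | hh | hh | hh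
      · rcases Sym2.mem_iff.1 hwh with rfl | rfl
        · exact Or.inl (hS1 _ hp1 hwU)
        · exact Or.inr (hS3 _ hq3 hwU)
      · obtain ⟨x, hx, z, hz, -, rfl⟩ := hP.tmem _ _ _ _ p1 h hh
        rcases Sym2.mem_iff.1 hwh with rfl | rfl
        · exact Or.inl (hS1 _ hx hwU)
        · exact Or.inl (hS1 _ hz hwU)
      · obtain ⟨x, hx, z, hz, -, rfl⟩ := hP.tmem _ _ _ _ p3 h hh
        rcases Sym2.mem_iff.1 hwh with rfl | rfl
        · exact Or.inr (hS3 _ hx hwU)
        · exact Or.inr (hS3 _ hz hwU)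
      · exact absurd hfh (hzero h hh f hf)
    · intro w hw
      rw [mem_insert, mem_singleton] at hw
      rcases hw with rfl | rfl
      · exact hsatt
      · exact htatt
  refine ⟨s, t, hattE, ?_⟩
  by_cases hst : s = t
  · left
    refine ⟨hst, ?_⟩
    rw [hSU4]
    subst hst
    exact (hP.triv _ _ _ p4).1
  · right
    have hpS3 : p ∉ S3 := by
      intro hp3
      have h1 := hS12 p hp1 (h32 hp3)
      rw [h1] at hp3
      exact hst (hS3 s hp3 hsU)
    have hqS1 : q ∉ S1 := by
      intro hq1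
      have h1 := hS12 q hq1 (h32 hq3)
      rw [h1] at hq3
      exact hst (hS3 s hq3 hsU)
    obtain ⟨c1, -⟩ := hP.concat t q p S3 T3 {q, p} {s(q, p)} p3.symm (hP.edge q p hpq.symm)
      (by
        intro v hv
        rw [mem_inter, mem_insert, mem_singleton] at hv
        rw [mem_singleton]
        rcases hv.2 with h | h
        · exact h
        · rw [h] at hv
          exact absurd hv.1 hpS3)
    obtain ⟨c2, -⟩ := hP.concat t p s _ _ S1 T1 c1 p1 (by
      intro v hv
      rw [mem_inter, mem_union, mem_insert, mem_singleton] at hv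
      rw [mem_singleton]
      obtain ⟨hv, hv1⟩ := hv
      rcases hv with hv | hv | hv
      · have h1 := hS12 v hv1 (h32 hv)
        rw [h1] at hv
        exact absurd (hS3 s hv hsU) hst
      · rw [hv] at hv1
        exact absurd hv1 hqS1
      · exact hv)
    refine ⟨hst, T4, _, _, by rw [hSU4]; exact p4'.symm, c2, ?_, ?_, ?_, ?_, ?_⟩
    · apply subset_antisymm
      · intro v hv
        rw [mem_inter, mem_union, mem_union, mem_insert, mem_singleton] at hv
        rw [mem_insert, mem_singleton]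
        obtain ⟨hv, hvU⟩ := hv
        rcases hv with (hv | hv | hv) | hv
        · exact Or.inr (hS3 v hv hvU)
        · exact Or.inr (hS3 v (by rw [hv]; exact hq3) hvU)
        · exact Or.inl (hS1 v (by rw [hv]; exact hp1) hvU)
        · exact Or.inl (hS1 v hv hvU)
      · intro v hv
        rw [mem_insert, mem_singleton] at hv
        rw [mem_inter]
        rcases hv with rfl | rfl
        · exact ⟨mem_union_right _ hs1, hsU⟩
        · exact ⟨mem_union_left _ (mem_union_left _ ht3), htU⟩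
    · intro v hv
      rw [mem_union, mem_union, mem_insert, mem_singleton] at hv
      rcases hv with (hv | hv | hv) | hv
      · exact h2S (h32 hv)
      · rw [hv]; exact hqS
      · rw [hv]; exact hpS
      · exact h1S hv
    · intro f hf
      obtain ⟨h, hh, hfh⟩ := hcov f hf
      refine ⟨h, ?_, hfh⟩
      rw [mem_union, mem_union, mem_singleton]
      rcases hTcases h hh with rfl | hh | hh | hh
      · exact Or.inl (Or.inr Sym2.eq_swap)
      · exact Or.inr hh
      · exact Or.inl (Or.inl hh)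
      · exact absurd hfh (hzero h hh f hf)
    · rintro ⟨f, hf, hfh⟩
      rw [hSU4]
      by_contra hlt
      have hT4 := (hP.single t s S4 T4 p4 (Ne.symm hst) (Or.inr (by omega))).2
      refine hzero s(t, s) (by rw [hT4]; exact mem_singleton_self _) f hf ?_
      rw [Sym2.eq_swap]
      exact hfh
    · intro hT2
      have : s(q, p) ∈ T3 ∪ {s(q, p)} ∪ T1 :=
        mem_union_left _ (mem_union_right _ (mem_singleton_self _))
      rw [hT2, mem_singleton] at this
      refine ⟨f0, hf0, ?_⟩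
      rw [← this, Sym2.eq_swap]
      exact hf0h

end ErdPos
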